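import Mathlib

set_option autoImplicit false

/-! # Moments of the residue statistic over a set of primes -/

namespace Pool.Agent.H771R4.UH

open Finset

/-- centred statistic at the prime `p` -/
noncomputable def X (p n : ℕ) : ℝ :=
  (1 / (p : ℝ)) * ((if p < 2 * (n % p) then (1 : ℝ) else 0) - ((p : ℝ) - 1) / (2 * p))

lemma X_abs {p : ℕ} (hp : p.Prime) (n : ℕ) : |X p n| ≤ 1 / (p : ℝ) := by
  have hp1 : (1 : ℝ) ≤ p := by exact_mod_cast hp.one_lt.le
  have hp0 : (0 : ℝ) < p := by linarith
  unfold X
  rw [abs_mul, abs_of_pos (by positivity : (0 : ℝ) < 1 / p)]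
  apply mul_le_of_le_one_right (by positivity)
  have h1 : 0 ≤ ((p : ℝ) - 1) / (2 * p) := div_nonneg (by linarith) (by linarith)
  have h2 : ((p : ℝ) - 1) / (2 * p) ≤ 1 := by
    rw [div_le_one (by linarith)]; linarith
  rw [abs_le]
  split_ifs
  · constructor <;> linarith
  · constructor <;> linarith

lemma X_mod (p n : ℕ) : X p (n % p) = X p n := by
  unfold X
  rw [Nat.mod_mod]

lemma X_sum {p : ℕ} (hp : p.Prime) (hp2 : p ≠ 2) : ∑ r ∈ range p, X p r = 0 := by
  have hp0 : (0 : ℝ) < p := by exact_mod_cast hp.pos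
  unfold X
  rw [← mul_sum, sum_sub_distrib, Finset.sum_const, card_range, nsmul_eq_mul]
  have h1 : ∑ r ∈ range p, (if p < 2 * (r % p) then (1 : ℝ) else 0) = ((p : ℝ) - 1) / 2 := by
    have h2 : ∑ r ∈ range p, (if p < 2 * (r % p) then (1 : ℝ) else 0) =
        ∑ r ∈ range p, (if p < 2 * r then (1 : ℝ) else 0) := by
      apply sum_congr rfl
      intro r hr
      rw [Nat.mod_eq_of_lt (mem_range.1 hr)]
    rw [h2, Finset.sum_boole]
    obtain ⟨k, hk⟩ := hp.odd_of_ne_two hp2
    have h3 : (range p).filter (fun r => p < 2 * r) = Ico (k + 1) (2 * k + 1) := by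
      ext r
      rw [mem_filter, mem_range, mem_Ico]
      omega
    rw [h3, Nat.card_Ico, hk]
    have : 2 * k + 1 - (k + 1) = k := by omega
    rw [this]
    push_cast
    ring
  rw [h1]
  field_simp
  ring

/-- a sum over an initial segment with a periodic factor of a coprime period -/
lemma partial_sum {p q : ℕ} (hp : p.Prime) (hp2 : p ≠ 2) (hq : 0 < q) (hpq : Nat.Coprime q p)
    (G : ℕ → ℝ) (hG : ∀ n, G (n % q) = G n) (M : ℝ) (hM : ∀ n, |G n| ≤ M) (N : ℕ) :
    |∑ n ∈ range N, X p n * G n| ≤ q * M := by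
  have hp0 : (0 : ℝ) < p := by exact_mod_cast hp.pos
  have hM0 : 0 ≤ M := (abs_nonneg _).trans (hM 0)
  have h1 : ∑ n ∈ range N, X p n * G n =
      ∑ a ∈ range q, ∑ n ∈ (range N).filter (fun n => n % q = a), X p n * G n := by
    rw [Finset.sum_fiberwise_of_maps_to]
    intro n _
    exact mem_range.2 (Nat.mod_lt _ hq)
  have h2 : ∀ a ∈ range q,
      |∑ n ∈ (range N).filter (fun n => n % q = a), X p n * G n| ≤ M := by
    intro a ha
    have e1 : ∑ n ∈ (range N).filter (fun n => n % q = a), X p n * G n =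
        G a * ∑ n ∈ (range N).filter (fun n => n % q = a), X p n := by
      rw [mul_sum]
      apply sum_congr rfl
      intro n hn
      rw [mem_filter] at hn
      rw [← hG n, hn.2, mul_comm]
    have e2 : ∑ n ∈ (range N).filter (fun n => n % q = a), X p n =
        ∑ r ∈ range p, ∑ n ∈ ((range N).filter (fun n => n % q = a)).filter
          (fun n => n % p = r), X p n := by
      rw [Finset.sum_fiberwise_of_maps_to]
      intro n _
      exact mem_range.2 (Nat.mod_lt _ hp.pos)
    have e3 : ∀ r ∈ range p, ∃ θ : ℝ, 0 ≤ θ ∧ θ ≤ 1 ∧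
        ∑ n ∈ ((range N).filter (fun n => n % q = a)).filter (fun n => n % p = r), X p n =
          X p r * (((N / (q * p) : ℕ) : ℝ) + θ) := by
      intro r hr
      have hqp : 0 < q * p := Nat.mul_pos hq hp.pos
      obtain ⟨c, hc1, hc2⟩ := Nat.chineseRemainder hpq a r
      have f1 : ((range N).filter (fun n => n % q = a)).filter (fun n => n % p = r) =
          (range N).filter (fun n => n ≡ c [MOD (q * p)]) := by
        ext n
        rw [mem_filter, mem_filter, mem_filter, ← Nat.modEq_and_modEq_iff_modEq_mul hpq, and_assoc]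
        have g1 : a % q = a := Nat.mod_eq_of_lt (mem_range.1 ha)
        have g2 : r % p = r := Nat.mod_eq_of_lt (mem_range.1 hr)
        have g3 : c % q = a := by
          have := hc1
          unfold Nat.ModEq at this
          rw [this, g1]
        have g4 : c % p = r := by
          have := hc2
          unfold Nat.ModEq at this
          rw [this, g2]
        unfold Nat.ModEq
        rw [g3, g4]
      have f2 : ∀ n ∈ ((range N).filter (fun n => n % q = a)).filter (fun n => n % p = r),
          X p n = X p r := by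
        intro n hn
        rw [mem_filter] at hn
        rw [← X_mod p n, hn.2]
      rw [sum_congr rfl f2, sum_const, nsmul_eq_mul, f1, ← Nat.count_eq_card_filter_range,
        Nat.count_modEq_card N hqp c]
      refine ⟨if c % (q * p) < N % (q * p) then 1 else 0, by split_ifs <;> norm_num,
        by split_ifs <;> norm_num, ?_⟩
      push_cast
      ring
    choose! θ hθ0 hθ1 hθ using e3
    have e4 : |∑ n ∈ (range N).filter (fun n => n % q = a), X p n| ≤ 1 := by
      rw [e2, sum_congr rfl hθ]
      have e5 : ∑ r ∈ range p, X p r * (((N / (q * p) : ℕ) : ℝ) + θ r) =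
          ∑ r ∈ range p, X p r * θ r := by
        simp_rw [mul_add]
        rw [sum_add_distrib, ← sum_mul, X_sum hp hp2, zero_mul, zero_add]
      rw [e5]
      refine (abs_sum_le_sum_abs _ _).trans ?_
      calc ∑ r ∈ range p, |X p r * θ r| ≤ ∑ _r ∈ range p, 1 / (p : ℝ) := by
            apply sum_le_sum
            intro r hr
            rw [abs_mul, abs_of_nonneg (hθ0 r hr)]
            calc |X p r| * θ r ≤ 1 / (p : ℝ) * 1 :=
                  mul_le_mul (X_abs hp r) (hθ1 r hr) (hθ0 r hr) (by positivity)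
              _ = 1 / (p : ℝ) := mul_one _
        _ = 1 := by
            rw [sum_const, card_range, nsmul_eq_mul]
            field_simp
    rw [e1, abs_mul]
    calc |G a| * |∑ n ∈ (range N).filter (fun n => n % q = a), X p n| ≤ M * 1 :=
          mul_le_mul (hM a) e4 (abs_nonneg _) hM0
      _ = M := mul_one _
  rw [h1]
  refine (abs_sum_le_sum_abs _ _).trans ((sum_le_sum h2).trans ?_)
  rw [sum_const, card_range, nsmul_eq_mul]

/-- tuples in which every value is taken at least twice are few -/
lemma few_tuples (B : Finset ℕ) (m : ℕ) (hm : 1 ≤ m) :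
    #((Fintype.piFinset (fun _ : Fin (2 * m) => B)).filter
      (fun v => ∀ i, ∃ j, j ≠ i ∧ v j = v i)) ≤ #B ^ m * m ^ (2 * m) := by
  classical
  have h : (Fintype.piFinset (fun _ : Fin (2 * m) => B)).filter
      (fun v => ∀ i, ∃ j, j ≠ i ∧ v j = v i) ⊆
      ((Fintype.piFinset (fun _ : Fin m => B)) ×ˢ
        (univ : Finset (Fin (2 * m) → Fin m))).image (fun wu => wu.1 ∘ wu.2) := by
    intro v hv
    rw [mem_filter, Fintype.mem_piFinset] at hv
    obtain ⟨hvB, hv2⟩ := hv
    rw [mem_image]
    set S := univ.image v with hS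
    have hcard : 2 * #S ≤ 2 * m := by
      have h1 : ∑ s ∈ S, #((univ : Finset (Fin (2 * m))).filter (fun i => v i = s)) =
          #(univ : Finset (Fin (2 * m))) :=
        (Finset.card_eq_sum_card_fiberwise (fun i _ => mem_coe.2 (mem_image_of_mem v (mem_univ i)))).symm
      have h2 : ∀ s ∈ S, 2 ≤ #((univ : Finset (Fin (2 * m))).filter (fun i => v i = s)) := by
        intro s hs
        rw [hS, mem_image] at hs
        obtain ⟨i, _, hi⟩ := hs
        obtain ⟨j, hj1, hj2⟩ := hv2 i
        have : ({i, j} : Finset (Fin (2 * m))) ⊆ univ.filter (fun i => v i = s) := by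
          intro k hk
          rw [mem_insert, mem_singleton] at hk
          rw [mem_filter]
          refine ⟨mem_univ _, ?_⟩
          rcases hk with hk | hk
          · rw [hk, hi]
          · rw [hk, hj2, hi]
        have h3 := card_le_card this
        rwa [card_pair hj1.symm] at h3
      have h3 := Finset.card_nsmul_le_sum S _ 2 h2
      rw [h1, card_univ, Fintype.card_fin, smul_eq_mul] at h3
      omega
    have hcard' : #S ≤ m := by omega
    -- an enumeration
    have hne : 0 < 2 * m := by omega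
    set b0 : ℕ := v ⟨0, hne⟩ with hb0
    have hb0B : b0 ∈ B := hvB _
    set eq := S.equivFin with heq
    refine ⟨(fun i : Fin m => if h : (i : ℕ) < #S then ((eq.symm ⟨i, h⟩ : S) : ℕ) else b0,
      fun i => ⟨eq ⟨v i, mem_image_of_mem v (mem_univ i)⟩, ?_⟩), ?_, ?_⟩
    · exact lt_of_lt_of_le (Fin.is_lt _) hcard'
    · rw [mem_product]
      refine ⟨?_, mem_univ _⟩
      rw [Fintype.mem_piFinset]
      intro i
      simp only
      split_ifs with h
      · have h1 : ((eq.symm ⟨i, h⟩ : S) : ℕ) ∈ image v univ := (eq.symm ⟨i, h⟩).2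
        obtain ⟨k, _, hk⟩ := mem_image.1 h1
        rw [← hk]
        exact hvB k
      · exact hb0B
    · funext i
      simp only [Function.comp]
      rw [dif_pos (Fin.is_lt _)]
      simp
  refine (card_le_card h).trans (card_image_le.trans ?_)
  rw [card_product, Fintype.card_piFinset]
  simp

/-- the moment -/
theorem moment (B : Finset ℕ) (P : ℝ) (hP : 0 < P) (hB : ∀ p ∈ B, p.Prime ∧ p ≠ 2 ∧ P ≤ p)
    (m : ℕ) (hm : 1 ≤ m) (N : ℕ) :
    ∑ n ∈ range N, (∑ p ∈ B, X p n) ^ (2 * m) ≤
      (#B : ℝ) ^ (2 * m) + N * ((#B : ℝ) ^ m * (m : ℝ) ^ (2 * m) / P ^ (2 * m)) := by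
  classical
  set T := Fintype.piFinset (fun _ : Fin (2 * m) => B) with hT
  have h1 : ∀ n : ℕ, (∑ p ∈ B, X p n) ^ (2 * m) = ∑ v ∈ T, ∏ i, X (v i) n := by
    intro n
    have := Finset.prod_univ_sum (fun _ : Fin (2 * m) => B) (fun _ (q : ℕ) => X q n)
    rw [← this]
    simp
  simp_rw [h1]
  rw [sum_comm]
  rw [← Finset.sum_filter_add_sum_filter_not T (fun v => ∀ i, ∃ j, j ≠ i ∧ v j = v i)]
  have hbad : ∑ v ∈ T.filter (fun v => ∀ i, ∃ j, j ≠ i ∧ v j = v i),
      ∑ n ∈ range N, ∏ i, X (v i) n ≤
      N * ((#B : ℝ) ^ m * (m : ℝ) ^ (2 * m) / P ^ (2 * m)) := by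
    have e1 : ∀ v ∈ T.filter (fun v => ∀ i, ∃ j, j ≠ i ∧ v j = v i),
        ∑ n ∈ range N, ∏ i, X (v i) n ≤ N * (1 / P ^ (2 * m)) := by
      intro v hv
      rw [mem_filter, hT, Fintype.mem_piFinset] at hv
      calc ∑ n ∈ range N, ∏ i, X (v i) n ≤ ∑ _n ∈ range N, (1 / P ^ (2 * m)) := by
            apply sum_le_sum
            intro n _
            refine (le_abs_self _).trans ?_
            rw [Finset.abs_prod]
            calc ∏ i, |X (v i) n| ≤ ∏ _i : Fin (2 * m), (1 / P) := by
                  apply Finset.prod_le_prod (fun _ _ => abs_nonneg _)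
                  intro i _
                  obtain ⟨a1, _, a3⟩ := hB (v i) (hv.1 i)
                  exact (X_abs a1 n).trans (one_div_le_one_div_of_le hP a3)
              _ = 1 / P ^ (2 * m) := by
                  rw [prod_const, card_univ, Fintype.card_fin, one_div_pow]
        _ = N * (1 / P ^ (2 * m)) := by rw [sum_const, card_range, nsmul_eq_mul]
    refine (sum_le_sum e1).trans ?_
    rw [sum_const, nsmul_eq_mul]
    have e2 : (#(T.filter (fun v => ∀ i, ∃ j, j ≠ i ∧ v j = v i)) : ℝ) ≤
        (#B : ℝ) ^ m * (m : ℝ) ^ (2 * m) := by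
      exact_mod_cast few_tuples B m hm
    calc (#(T.filter (fun v => ∀ i, ∃ j, j ≠ i ∧ v j = v i)) : ℝ) * (N * (1 / P ^ (2 * m)))
        ≤ ((#B : ℝ) ^ m * (m : ℝ) ^ (2 * m)) * (N * (1 / P ^ (2 * m))) := by gcongr
      _ = _ := by ring
  have hgood : ∑ v ∈ T.filter (fun v => ¬ ∀ i, ∃ j, j ≠ i ∧ v j = v i),
      ∑ n ∈ range N, ∏ i, X (v i) n ≤ (#B : ℝ) ^ (2 * m) := by
    have e1 : ∀ v ∈ T.filter (fun v => ¬ ∀ i, ∃ j, j ≠ i ∧ v j = v i),
        ∑ n ∈ range N, ∏ i, X (v i) n ≤ 1 := by
      intro v hv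
      rw [mem_filter, hT, Fintype.mem_piFinset] at hv
      obtain ⟨hvB, hv2⟩ := hv
      push Not at hv2
      obtain ⟨i, hi⟩ := hv2
      obtain ⟨a1, a2, _⟩ := hB (v i) (hvB i)
      set q : ℕ := ∏ j ∈ univ.erase i, v j with hq
      have hq0 : 0 < q := Finset.prod_pos fun j _ => (hB (v j) (hvB j)).1.pos
      have hq0' : (0 : ℝ) < q := by exact_mod_cast hq0
      have hcop : Nat.Coprime q (v i) := by
        rw [hq]
        apply Nat.Coprime.prod_left
        intro j hj
        rw [mem_erase] at hj
        exact (Nat.coprime_primes (hB (v j) (hvB j)).1 a1).2 (hi j hj.1)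
      have hps := partial_sum a1 a2 hq0 hcop (fun n => ∏ j ∈ univ.erase i, X (v j) n)
        (fun n => by
          apply Finset.prod_congr rfl
          intro j hj
          have hdvd : v j ∣ q := Finset.dvd_prod_of_mem v hj
          rw [← X_mod (v j) (n % q), Nat.mod_mod_of_dvd n hdvd, X_mod])
        (1 / (q : ℝ)) (fun n => by
          rw [Finset.abs_prod, hq]
          push_cast
          rw [one_div, ← Finset.prod_inv_distrib]
          apply Finset.prod_le_prod (fun _ _ => abs_nonneg _)
          intro j _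
          have := X_abs (hB (v j) (hvB j)).1 n
          rwa [one_div] at this) N
      rw [mul_one_div_cancel hq0'.ne'] at hps
      refine le_trans (le_of_eq ?_) ((le_abs_self _).trans hps)
      apply sum_congr rfl
      intro n _
      rw [← Finset.mul_prod_erase univ (fun j => X (v j) n) (mem_univ i)]
    refine (sum_le_sum e1).trans ?_
    rw [sum_const, nsmul_eq_mul, mul_one]
    have e2 : #(T.filter (fun v => ¬ ∀ i, ∃ j, j ≠ i ∧ v j = v i)) ≤ #B ^ (2 * m) := by
      refine (card_filter_le _ _).trans ?_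
      rw [hT, Fintype.card_piFinset]
      simp
    exact_mod_cast e2
  linarith

end Pool.Agent.H771R4.UH
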