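import Mathlib
import Pool.Agent.H771R4.UH.Moment

set_option autoImplicit false

/-! # Moments of a statistic modulo the `d`-th powers of primes -/

namespace Pool.Agent.H771R4.UH

open Finset

/-- a centred statistic modulo `p ^ d` -/
structure Stat (d : ℕ) where
  X : ℕ → ℕ → ℝ
  hA : ∀ p : ℕ, p.Prime → ∀ n, |X p n| ≤ 1 / (p : ℝ)
  hM : ∀ p n : ℕ, X p (n % p ^ d) = X p n
  hS : ∀ p : ℕ, p.Prime → ∑ r ∈ range (p ^ d), X p r = 0

/-- a sum over an initial segment with a periodic factor of a coprime period -/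
lemma partial_sumD {d : ℕ} (T : Stat d) {p q : ℕ} (hp : p.Prime) (hq : 0 < q)
    (hpq' : Nat.Coprime q p)
    (G : ℕ → ℝ) (hG : ∀ n, G (n % q) = G n) (M : ℝ) (hM : ∀ n, |G n| ≤ M) (N : ℕ) :
    |∑ n ∈ range N, T.X p n * G n| ≤ q * (M * ((p : ℝ) ^ d * (1 / (p : ℝ)))) := by
  have hp0 : (0 : ℝ) < p := by exact_mod_cast hp.pos
  have hM0 : 0 ≤ M := (abs_nonneg _).trans (hM 0)
  have hpq : Nat.Coprime q (p ^ d) := Nat.Coprime.pow_right d hpq'
  have hpd : 0 < p ^ d := pow_pos hp.pos d
  have h1 : ∑ n ∈ range N, T.X p n * G n =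
      ∑ a ∈ range q, ∑ n ∈ (range N).filter (fun n => n % q = a), T.X p n * G n := by
    rw [Finset.sum_fiberwise_of_maps_to]
    intro n _
    exact mem_range.2 (Nat.mod_lt _ hq)
  have h2 : ∀ a ∈ range q,
      |∑ n ∈ (range N).filter (fun n => n % q = a), T.X p n * G n| ≤
        M * ((p : ℝ) ^ d * (1 / (p : ℝ))) := by
    intro a ha
    have e1 : ∑ n ∈ (range N).filter (fun n => n % q = a), T.X p n * G n =
        G a * ∑ n ∈ (range N).filter (fun n => n % q = a), T.X p n := by
      rw [mul_sum]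
      apply sum_congr rfl
      intro n hn
      rw [mem_filter] at hn
      rw [← hG n, hn.2, mul_comm]
    have e2 : ∑ n ∈ (range N).filter (fun n => n % q = a), T.X p n =
        ∑ r ∈ range (p ^ d), ∑ n ∈ ((range N).filter (fun n => n % q = a)).filter
          (fun n => n % p ^ d = r), T.X p n := by
      rw [Finset.sum_fiberwise_of_maps_to]
      intro n _
      exact mem_range.2 (Nat.mod_lt _ hpd)
    have e3 : ∀ r ∈ range (p ^ d), ∃ θ : ℝ, 0 ≤ θ ∧ θ ≤ 1 ∧
        ∑ n ∈ ((range N).filter (fun n => n % q = a)).filter (fun n => n % p ^ d = r), T.X p n =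
          T.X p r * (((N / (q * p ^ d) : ℕ) : ℝ) + θ) := by
      intro r hr
      have hqp : 0 < q * p ^ d := Nat.mul_pos hq hpd
      obtain ⟨c, hc1, hc2⟩ := Nat.chineseRemainder hpq a r
      have f1 : ((range N).filter (fun n => n % q = a)).filter (fun n => n % p ^ d = r) =
          (range N).filter (fun n => n ≡ c [MOD (q * p ^ d)]) := by
        ext n
        rw [mem_filter, mem_filter, mem_filter, ← Nat.modEq_and_modEq_iff_modEq_mul hpq, and_assoc]
        have g1 : a % q = a := Nat.mod_eq_of_lt (mem_range.1 ha)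
        have g2 : r % p ^ d = r := Nat.mod_eq_of_lt (mem_range.1 hr)
        have g3 : c % q = a := by
          have := hc1
          unfold Nat.ModEq at this
          rw [this, g1]
        have g4 : c % p ^ d = r := by
          have := hc2
          unfold Nat.ModEq at this
          rw [this, g2]
        unfold Nat.ModEq
        rw [g3, g4]
      have f2 : ∀ n ∈ ((range N).filter (fun n => n % q = a)).filter (fun n => n % p ^ d = r),
          T.X p n = T.X p r := by
        intro n hn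
        rw [mem_filter] at hn
        rw [← T.hM p n, hn.2]
      rw [sum_congr rfl f2, sum_const, nsmul_eq_mul, f1, ← Nat.count_eq_card_filter_range,
        Nat.count_modEq_card N hqp c]
      refine ⟨if c % (q * p ^ d) < N % (q * p ^ d) then 1 else 0, by split_ifs <;> norm_num,
        by split_ifs <;> norm_num, ?_⟩
      push_cast
      ring
    choose! θ hθ0 hθ1 hθ using e3
    have e4 : |∑ n ∈ (range N).filter (fun n => n % q = a), T.X p n| ≤
        (p : ℝ) ^ d * (1 / (p : ℝ)) := by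
      rw [e2, sum_congr rfl hθ]
      have e5 : ∑ r ∈ range (p ^ d), T.X p r * (((N / (q * p ^ d) : ℕ) : ℝ) + θ r) =
          ∑ r ∈ range (p ^ d), T.X p r * θ r := by
        simp_rw [mul_add]
        rw [sum_add_distrib, ← sum_mul, T.hS p hp, zero_mul, zero_add]
      rw [e5]
      refine (abs_sum_le_sum_abs _ _).trans ?_
      calc ∑ r ∈ range (p ^ d), |T.X p r * θ r| ≤ ∑ _r ∈ range (p ^ d), 1 / (p : ℝ) := by
            apply sum_le_sum
            intro r hr
            rw [abs_mul, abs_of_nonneg (hθ0 r hr)]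
            calc |T.X p r| * θ r ≤ 1 / (p : ℝ) * 1 :=
                  mul_le_mul (T.hA p hp r) (hθ1 r hr) (hθ0 r hr) (by positivity)
              _ = 1 / (p : ℝ) := mul_one _
        _ = (p : ℝ) ^ d * (1 / (p : ℝ)) := by
            rw [sum_const, card_range, nsmul_eq_mul]
            push_cast
            ring
    rw [e1, abs_mul]
    exact mul_le_mul (hM a) e4 (abs_nonneg _) hM0
  rw [h1]
  refine (abs_sum_le_sum_abs _ _).trans ((sum_le_sum h2).trans ?_)
  rw [sum_const, card_range, nsmul_eq_mul]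

/-- the moment -/
theorem momentD {d : ℕ} (Y : Stat d) (B : Finset ℕ) (P Q : ℝ) (hP : 0 < P)
    (hB : ∀ p ∈ B, p.Prime ∧ P ≤ p ∧ (p : ℝ) ≤ Q)
    (m : ℕ) (hm : 1 ≤ m) (N : ℕ) :
    ∑ n ∈ range N, (∑ p ∈ B, Y.X p n) ^ (2 * m) ≤
      (#B * Q ^ d) ^ (2 * m) + N * ((#B : ℝ) ^ m * (m : ℝ) ^ (2 * m) / P ^ (2 * m)) := by
  classical
  set T := Fintype.piFinset (fun _ : Fin (2 * m) => B) with hT
  have h1 : ∀ n : ℕ, (∑ p ∈ B, Y.X p n) ^ (2 * m) = ∑ v ∈ T, ∏ i, Y.X (v i) n := by
    intro n
    have := Finset.prod_univ_sum (fun _ : Fin (2 * m) => B) (fun _ (q : ℕ) => Y.X q n)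
    rw [← this]
    simp
  simp_rw [h1]
  rw [sum_comm]
  rw [← Finset.sum_filter_add_sum_filter_not T (fun v => ∀ i, ∃ j, j ≠ i ∧ v j = v i)]
  have hbad : ∑ v ∈ T.filter (fun v => ∀ i, ∃ j, j ≠ i ∧ v j = v i),
      ∑ n ∈ range N, ∏ i, Y.X (v i) n ≤
      N * ((#B : ℝ) ^ m * (m : ℝ) ^ (2 * m) / P ^ (2 * m)) := by
    have e1 : ∀ v ∈ T.filter (fun v => ∀ i, ∃ j, j ≠ i ∧ v j = v i),
        ∑ n ∈ range N, ∏ i, Y.X (v i) n ≤ N * (1 / P ^ (2 * m)) := by
      intro v hv
      rw [mem_filter, hT, Fintype.mem_piFinset] at hv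
      calc ∑ n ∈ range N, ∏ i, Y.X (v i) n ≤ ∑ _n ∈ range N, (1 / P ^ (2 * m)) := by
            apply sum_le_sum
            intro n _
            refine (le_abs_self _).trans ?_
            rw [Finset.abs_prod]
            calc ∏ i, |Y.X (v i) n| ≤ ∏ _i : Fin (2 * m), (1 / P) := by
                  apply Finset.prod_le_prod (fun _ _ => abs_nonneg _)
                  intro i _
                  obtain ⟨a1, a3, _⟩ := hB (v i) (hv.1 i)
                  exact (Y.hA _ a1 n).trans (one_div_le_one_div_of_le hP a3)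
              _ = 1 / P ^ (2 * m) := by
                  rw [prod_const, card_univ, Fintype.card_fin, one_div_pow]
        _ = N * (1 / P ^ (2 * m)) := by rw [sum_const, card_range, nsmul_eq_mul]
    refine (sum_le_sum e1).trans ?_
    rw [sum_const, nsmul_eq_mul]
    have e2 : (#(T.filter (fun v => ∀ i, ∃ j, j ≠ i ∧ v j = v i)) : ℝ) ≤
        (#B : ℝ) ^ m * (m : ℝ) ^ (2 * m) := by
      exact_mod_cast few_tuples B m hm
    calc (#(T.filter (fun v => ∀ i, ∃ j, j ≠ i ∧ v j = v i)) : ℝ) * (N * (1 / P ^ (2 * m)))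
        ≤ ((#B : ℝ) ^ m * (m : ℝ) ^ (2 * m)) * (N * (1 / P ^ (2 * m))) := by gcongr
      _ = _ := by ring
  have hgood : ∑ v ∈ T.filter (fun v => ¬ ∀ i, ∃ j, j ≠ i ∧ v j = v i),
      ∑ n ∈ range N, ∏ i, Y.X (v i) n ≤ (#B * Q ^ d) ^ (2 * m) := by
    have e1 : ∀ v ∈ T.filter (fun v => ¬ ∀ i, ∃ j, j ≠ i ∧ v j = v i),
        ∑ n ∈ range N, ∏ i, Y.X (v i) n ≤ (Q ^ d) ^ (2 * m) := by
      intro v hv
      rw [mem_filter, hT, Fintype.mem_piFinset] at hv
      obtain ⟨hvB, hv2⟩ := hv
      push Not at hv2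
      obtain ⟨i, hi⟩ := hv2
      obtain ⟨a1, a2, _⟩ := hB (v i) (hvB i)
      set q : ℕ := ∏ j ∈ univ.erase i, (v j) ^ d with hq
      have hq0 : 0 < q := Finset.prod_pos fun j _ => pow_pos (hB (v j) (hvB j)).1.pos d
      have hq0' : (0 : ℝ) < q := by exact_mod_cast hq0
      have hcop : Nat.Coprime q (v i) := by
        rw [hq]
        apply Nat.Coprime.prod_left
        intro j hj
        rw [mem_erase] at hj
        exact Nat.Coprime.pow_left d
          ((Nat.coprime_primes (hB (v j) (hvB j)).1 a1).2 (hi j hj.1))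
      have hps := partial_sumD Y a1 hq0 hcop (fun n => ∏ j ∈ univ.erase i, Y.X (v j) n)
        (fun n => by
          apply Finset.prod_congr rfl
          intro j hj
          have hdvd : (v j) ^ d ∣ q := Finset.dvd_prod_of_mem (fun j => (v j) ^ d) hj
          rw [← Y.hM (v j) (n % q), Nat.mod_mod_of_dvd n hdvd, Y.hM])
        (∏ j ∈ univ.erase i, (1 / (v j : ℝ))) (fun n => by
          rw [Finset.abs_prod]
          apply Finset.prod_le_prod (fun _ _ => abs_nonneg _)
          intro j _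
          exact Y.hA _ (hB (v j) (hvB j)).1 n) N
      have hfin : (q : ℝ) * ((∏ j ∈ univ.erase i, (1 / (v j : ℝ))) *
          ((v i : ℝ) ^ d * (1 / (v i : ℝ)))) ≤ (Q ^ d) ^ (2 * m) := by
        have g1 : (q : ℝ) * ((∏ j ∈ univ.erase i, (1 / (v j : ℝ))) *
          ((v i : ℝ) ^ d * (1 / (v i : ℝ)))) = ∏ j, ((v j : ℝ) ^ d * (1 / (v j : ℝ))) := by
          rw [← Finset.mul_prod_erase univ (fun j => (v j : ℝ) ^ d * (1 / (v j : ℝ))) (mem_univ i),
            Finset.prod_mul_distrib, hq]
          push_cast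
          ring
        rw [g1]
        calc ∏ j, ((v j : ℝ) ^ d * (1 / (v j : ℝ))) ≤ ∏ _j : Fin (2 * m), Q ^ d := by
              apply Finset.prod_le_prod
              · intro j _
                positivity
              · intro j _
                obtain ⟨b1, b2, b3⟩ := hB (v j) (hvB j)
                have b4 : (1 : ℝ) ≤ v j := by exact_mod_cast b1.one_lt.le
                have b5 : 1 / (v j : ℝ) ≤ 1 := by
                  rw [div_le_one (by linarith)]
                  exact b4
                calc (v j : ℝ) ^ d * (1 / (v j : ℝ)) ≤ (v j : ℝ) ^ d * 1 := by gcongr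
                  _ = (v j : ℝ) ^ d := mul_one _
                  _ ≤ Q ^ d := pow_le_pow_left₀ (by linarith) b3 d
          _ = (Q ^ d) ^ (2 * m) := by rw [prod_const, card_univ, Fintype.card_fin]
      refine le_trans (le_of_eq ?_) ((le_abs_self _).trans (hps.trans hfin))
      apply sum_congr rfl
      intro n _
      rw [← Finset.mul_prod_erase univ (fun j => Y.X (v j) n) (mem_univ i)]
    refine (sum_le_sum e1).trans ?_
    rw [sum_const, nsmul_eq_mul, mul_pow]
    have e2 : #(T.filter (fun v => ¬ ∀ i, ∃ j, j ≠ i ∧ v j = v i)) ≤ #B ^ (2 * m) := by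
      refine (card_filter_le _ _).trans ?_
      rw [hT, Fintype.card_piFinset]
      simp
    have e3 : (#(T.filter (fun v => ¬ ∀ i, ∃ j, j ≠ i ∧ v j = v i)) : ℝ) ≤ (#B : ℝ) ^ (2 * m) := by
      exact_mod_cast e2
    have e4 : 0 ≤ (Q ^ d) ^ (2 * m) := by
      rw [pow_mul]
      positivity
    exact mul_le_mul_of_nonneg_right e3 e4
  linarith

end Pool.Agent.H771R4.UH
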