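import Mathlib
import Pool.Agent.H771R4.UH.MomentD

set_option autoImplicit false

/-! # One block of primes, statistic modulo the `d`-th powers -/

namespace Pool.Agent.H771R4.UH

open Finset

theorem block_excD {d : ℕ} (Y : Stat d) (D : ℝ) (hD : D = (d : ℝ) + 1) (N : ℕ) (hN : 1 ≤ N) (L t e : ℝ) (hL : Real.log N = L) (hL3 : 1 ≤ Real.log L)
    (ht : 80 * Real.log L ≤ t) (ht2 : t ≤ L / (200 * D)) (he : 0 < e) (he2 : 1 / e ≤ L)
    (B : Finset ℕ) (hB : ∀ p ∈ B, p.Prime ∧ Real.exp t ≤ p ∧ (p : ℝ) ≤ Real.exp ((21 / 20) * t))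
    (hBc : (#B : ℝ) ≤ Real.exp ((21 / 20) * t)) :
    (#((range (N + 1)).filter (fun n => e < |∑ p ∈ B, Y.X p n|)) : ℝ) ≤
      3 * Real.exp (L - (7 / 25) * (L / D)) := by
  classical
  have hD1 : 1 ≤ D := by rw [hD]; linarith [Nat.cast_nonneg (α := ℝ) d]
  have hD0 : 0 < D := by linarith
  set A : ℝ := L / D with hA
  have ht0 : 0 < t := by linarith
  have hA200 : t ≤ A / 200 := by
    refine ht2.trans (le_of_eq ?_)
    rw [hA]; field_simp
  have hA0 : 0 < A := by linarith
  have hL0 : 0 < L := by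
    have : L = A * D := by rw [hA]; field_simp
    rw [this]; positivity
  have hAL : A ≤ L := by
    rw [hA, div_le_iff₀ hD0]
    nlinarith
  have hLexp : L = Real.exp (Real.log L) := (Real.exp_log hL0).symm
  have hN0 : (0 : ℝ) < N := by exact_mod_cast hN
  have hNexp : (N : ℝ) = Real.exp L := by rw [← hL, Real.exp_log hN0]
  set m : ℕ := ⌊A / ((63 / 20) * t)⌋₊ with hm
  have hm1 : (m : ℝ) ≤ A / ((63 / 20) * t) := Nat.floor_le (by positivity)
  have hm2 : A / ((63 / 20) * t) < m + 1 := Nat.lt_floor_add_one _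
  have hmt1 : (m : ℝ) * t ≤ A / (63 / 20) := by
    rw [le_div_iff₀ (by positivity)] at hm1
    rw [le_div_iff₀ (by norm_num)]
    linarith
  have hmt2 : A / (63 / 20) - t ≤ (m : ℝ) * t := by
    rw [div_lt_iff₀ (by positivity)] at hm2
    have : A / (63 / 20) ≤ (m + 1) * t := by
      rw [div_le_iff₀ (by norm_num)]
      linarith
    linarith
  have hm0 : 1 ≤ m := by
    rw [hm]
    apply Nat.le_floor
    push_cast
    rw [le_div_iff₀ (by positivity)]
    linarith
  have hm0' : (1 : ℝ) ≤ m := by exact_mod_cast hm0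
  have hmL : (m : ℝ) ≤ L := by
    have h1 : 80 ≤ t := by linarith
    have h2 : (m : ℝ) * 80 ≤ m * t := mul_le_mul_of_nonneg_left h1 (by linarith)
    have h3 : A / (63 / 20) ≤ L := by
      rw [div_le_iff₀ (by norm_num)]
      linarith
    linarith
  have hmom := momentD Y B (Real.exp t) (Real.exp ((21 / 20) * t)) (Real.exp_pos _) hB m hm0 (N + 1)
  set c : ℝ := (#((range (N + 1)).filter (fun n => e < |∑ p ∈ B, Y.X p n|)) : ℝ) with hc
  have h1 : c * e ^ (2 * m) ≤ ∑ n ∈ range (N + 1), (∑ p ∈ B, Y.X p n) ^ (2 * m) := by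
    rw [hc, ← nsmul_eq_mul, ← sum_const]
    refine le_trans (sum_le_sum ?_) (sum_le_sum_of_subset_of_nonneg (filter_subset _ _) ?_)
    · intro n hn
      rw [mem_filter] at hn
      rw [pow_mul (∑ p ∈ B, Y.X p n), ← sq_abs, ← pow_mul]
      exact pow_le_pow_left₀ he.le hn.2.le _
    · intro n _ _
      rw [pow_mul]
      positivity
  have hLm : L ^ (2 * m) ≤ Real.exp ((m : ℝ) * t / 40) := by
    rw [hLexp, ← Real.exp_nat_mul]
    apply Real.exp_le_exp.2
    push_cast
    have := mul_le_mul_of_nonneg_left ht (by linarith : (0 : ℝ) ≤ m)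
    linarith
  have hem : (1 / e) ^ (2 * m) ≤ Real.exp ((m : ℝ) * t / 40) :=
    (pow_le_pow_left₀ (by positivity) he2 _).trans hLm
  have hmm : (m : ℝ) ^ (2 * m) ≤ Real.exp ((m : ℝ) * t / 40) :=
    (pow_le_pow_left₀ (by linarith) hmL _).trans hLm
  have hB1 : ((#B : ℝ) * Real.exp ((21 / 20) * t) ^ d) ^ (2 * m) ≤
      Real.exp ((21 / 10) * (D * (m * t))) := by
    have h0 : (#B : ℝ) * Real.exp ((21 / 20) * t) ^ d ≤ Real.exp ((21 / 20) * t * D) := by
      calc (#B : ℝ) * Real.exp ((21 / 20) * t) ^ d ≤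
          Real.exp ((21 / 20) * t) * Real.exp ((21 / 20) * t) ^ d :=
            mul_le_mul_of_nonneg_right hBc (by positivity)
        _ = Real.exp ((21 / 20) * t * D) := by
          rw [← Real.exp_nat_mul, ← Real.exp_add, hD]; congr 1; ring
    refine (pow_le_pow_left₀ (mul_nonneg (Nat.cast_nonneg _)
      (pow_nonneg (Real.exp_pos _).le _)) h0 _).trans (le_of_eq ?_)
    rw [← Real.exp_nat_mul]
    congr 1
    push_cast
    ring
  have hB2 : (#B : ℝ) ^ m ≤ Real.exp ((21 / 20) * (m * t)) := by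
    refine (pow_le_pow_left₀ (Nat.cast_nonneg _) hBc _).trans (le_of_eq ?_)
    rw [← Real.exp_nat_mul]
    congr 1
    ring
  have hP : 1 / (Real.exp t) ^ (2 * m) = Real.exp (-(2 * (m * t))) := by
    rw [← Real.exp_nat_mul, one_div, ← Real.exp_neg]
    congr 1
    push_cast
    ring
  have h2 : c ≤ (1 / e) ^ (2 * m) * (((#B : ℝ) * Real.exp ((21 / 20) * t) ^ d) ^ (2 * m) +
      ((N + 1 : ℕ) : ℝ) * ((#B : ℝ) ^ m * (m : ℝ) ^ (2 * m) / (Real.exp t) ^ (2 * m))) := by
    have h3 : c = (1 / e) ^ (2 * m) * (c * e ^ (2 * m)) := by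
      rw [one_div_pow]; field_simp
    rw [h3]
    exact mul_le_mul_of_nonneg_left (h1.trans hmom) (by positivity)
  have h3 : ((N + 1 : ℕ) : ℝ) ≤ 2 * Real.exp L := by
    push_cast
    rw [← hNexp]
    have : (1 : ℝ) ≤ N := by exact_mod_cast hN
    linarith
  have h4 : (1 / e) ^ (2 * m) * ((#B : ℝ) * Real.exp ((21 / 20) * t) ^ d) ^ (2 * m) ≤
      Real.exp (L - (7 / 25) * A) := by
    calc (1 / e) ^ (2 * m) * ((#B : ℝ) * Real.exp ((21 / 20) * t) ^ d) ^ (2 * m)
        ≤ Real.exp ((m : ℝ) * t / 40) * Real.exp ((21 / 10) * (D * (m * t))) :=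
          mul_le_mul hem hB1 (pow_nonneg (mul_nonneg (Nat.cast_nonneg _)
            (pow_nonneg (Real.exp_pos _).le _)) _) (Real.exp_pos _).le
      _ = Real.exp ((m : ℝ) * t / 40 + (21 / 10) * (D * (m * t))) := by rw [← Real.exp_add]
      _ ≤ Real.exp (L - (7 / 25) * A) := by
        apply Real.exp_le_exp.2
        have h9 : D * ((m : ℝ) * t) ≤ D * (A / (63 / 20)) :=
          mul_le_mul_of_nonneg_left hmt1 hD0.le
        have h10 : D * (A / (63 / 20)) = (20 / 63) * L := by rw [hA]; field_simp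
        rw [h10] at h9
        have h12 : A / (63 / 20) = (20 / 63) * A := by ring
        rw [h12] at hmt1
        linarith
  have h5 : (1 / e) ^ (2 * m) * (((N + 1 : ℕ) : ℝ) * ((#B : ℝ) ^ m * (m : ℝ) ^ (2 * m) /
      (Real.exp t) ^ (2 * m))) ≤ 2 * Real.exp (L - (7 / 25) * A) := by
    calc (1 / e) ^ (2 * m) * (((N + 1 : ℕ) : ℝ) * ((#B : ℝ) ^ m * (m : ℝ) ^ (2 * m) /
        (Real.exp t) ^ (2 * m)))
        = (1 / e) ^ (2 * m) * (((N + 1 : ℕ) : ℝ) * ((#B : ℝ) ^ m * (m : ℝ) ^ (2 * m) *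
        (1 / (Real.exp t) ^ (2 * m)))) := by ring
      _ ≤ Real.exp ((m : ℝ) * t / 40) * ((2 * Real.exp L) * (Real.exp ((21 / 20) * (m * t)) *
        Real.exp ((m : ℝ) * t / 40) * Real.exp (-(2 * (m * t))))) := by
          rw [hP]
          have q1 : (#B : ℝ) ^ m * (m : ℝ) ^ (2 * m) ≤ Real.exp ((21 / 20) * (m * t)) *
              Real.exp ((m : ℝ) * t / 40) :=
            mul_le_mul hB2 hmm (pow_nonneg (Nat.cast_nonneg _) _) (Real.exp_pos _).le
          have q2 : (#B : ℝ) ^ m * (m : ℝ) ^ (2 * m) * Real.exp (-(2 * (m * t))) ≤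
              Real.exp ((21 / 20) * (m * t)) * Real.exp ((m : ℝ) * t / 40) *
                Real.exp (-(2 * (m * t))) :=
            mul_le_mul_of_nonneg_right q1 (Real.exp_pos _).le
          have q3 : 0 ≤ (#B : ℝ) ^ m * (m : ℝ) ^ (2 * m) * Real.exp (-(2 * (m * t))) :=
            mul_nonneg (mul_nonneg (pow_nonneg (Nat.cast_nonneg _) _)
              (pow_nonneg (Nat.cast_nonneg _) _)) (Real.exp_pos _).le
          have q4 := mul_le_mul h3 q2 q3 (by positivity : (0 : ℝ) ≤ 2 * Real.exp L)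
          exact mul_le_mul hem q4 (mul_nonneg (Nat.cast_nonneg _) q3) (Real.exp_pos _).le
      _ = 2 * Real.exp (L - (9 / 10) * (m * t)) := by
          have : Real.exp (L - (9 / 10) * (m * t)) = Real.exp ((m : ℝ) * t / 40) * (Real.exp L *
            (Real.exp ((21 / 20) * (m * t)) * Real.exp ((m : ℝ) * t / 40) *
              Real.exp (-(2 * (m * t))))) := by
            rw [← Real.exp_add, ← Real.exp_add, ← Real.exp_add, ← Real.exp_add]
            congr 1
            ring
          rw [this]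
          ring
      _ ≤ 2 * Real.exp (L - (7 / 25) * A) := by
          apply mul_le_mul_of_nonneg_left _ (by norm_num)
          apply Real.exp_le_exp.2
          have h6 : (9 / 10) * (A / (63 / 20) - A / 200) ≤ (9 / 10) * ((m : ℝ) * t) := by
            apply mul_le_mul_of_nonneg_left _ (by norm_num)
            linarith
          have h7 : (9 / 10) * (A / (63 / 20) - A / 200) = (9 / 10 * (20 / 63 - 1 / 200)) * A := by
            ring
          have h8 : (7 / 25) * A ≤ (9 / 10 * (20 / 63 - 1 / 200)) * A :=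
            mul_le_mul_of_nonneg_right (by norm_num) hA0.le
          linarith
  rw [mul_add] at h2
  linarith

end Pool.Agent.H771R4.UH
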