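import Mathlib
import Pool.Agent.H771R4.UH.MomentD

set_option autoImplicit false

/-! # The statistic of the central binomial coefficient -/

namespace Pool.Agent.H771R4.UH

open Finset

/-- no carry in the lowest `d` places of `n + n` in base `p` -/
def cond (d p n : ℕ) : Prop := ∀ i ∈ Icc 1 d, 2 * (n % p ^ i) < p ^ i

instance (d p n : ℕ) : Decidable (cond d p n) := by unfold cond; infer_instance

lemma cond_mod (d p n : ℕ) : cond d p (n % p ^ d) ↔ cond d p n := by
  unfold cond
  apply forall_congr'
  intro i
  apply imp_congr_right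
  intro hi
  rw [mem_Icc] at hi
  rw [Nat.mod_mod_of_dvd n (pow_dvd_pow p hi.2)]

/-- the number of residues -/
def cn (d p : ℕ) : ℕ := #((range (p ^ d)).filter (fun r => cond d p r))

lemma cn_le {p : ℕ} (hp : 0 < p) (d : ℕ) : cn d p ≤ ((p + 1) / 2) ^ d := by
  induction d with
  | zero =>
    unfold cn
    refine (card_filter_le _ _).trans ?_
    simp
  | succ d ih =>
    have h : #((range (p ^ (d + 1))).filter (fun r => cond (d + 1) p r)) ≤
        #(((range (p ^ d)).filter (fun r => cond d p r)) ×ˢ range ((p + 1) / 2)) := by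
      have hpd : 0 < p ^ d := pow_pos hp d
      apply Finset.card_le_card_of_injOn (fun r => (r % p ^ d, r / p ^ d))
      · intro r hr
        rw [mem_coe, mem_filter, mem_range] at hr
        rw [mem_coe, mem_product, mem_filter, mem_range, mem_range]
        refine ⟨⟨Nat.mod_lt _ hpd, ?_⟩, ?_⟩
        · show cond d p (r % p ^ d)
          rw [cond_mod]
          intro i hi
          rw [mem_Icc] at hi
          exact hr.2 i (mem_Icc.2 ⟨hi.1, by omega⟩)
        · have h1 := hr.2 (d + 1) (mem_Icc.2 ⟨by omega, le_rfl⟩)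
          rw [Nat.mod_eq_of_lt hr.1] at h1
          show r / p ^ d < (p + 1) / 2
          have h2 : p ^ d * (r / p ^ d) ≤ r := Nat.mul_div_le r (p ^ d)
          have h3 : p ^ d * (2 * (r / p ^ d)) < p ^ d * p := by
            calc p ^ d * (2 * (r / p ^ d)) = 2 * (p ^ d * (r / p ^ d)) := by ring
              _ ≤ 2 * r := by omega
              _ < p ^ (d + 1) := h1
              _ = p ^ d * p := pow_succ p d
          have h4 := Nat.lt_of_mul_lt_mul_left h3
          omega
      · intro r _ s _ hrs
        simp only [Prod.mk.injEq] at hrs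
        rw [← Nat.mod_add_div r (p ^ d), ← Nat.mod_add_div s (p ^ d), hrs.1, hrs.2]
    unfold cn
    refine h.trans ?_
    rw [card_product, card_range, pow_succ]
    exact Nat.mul_le_mul_right _ ih

/-- the statistic -/
noncomputable def st (d : ℕ) : Stat d where
  X := fun p n => (1 / (p : ℝ)) * ((if cond d p n then (1 : ℝ) else 0) - (cn d p : ℝ) / (p : ℝ) ^ d)
  hA := by
    intro p hp n
    have hp0 : (0 : ℝ) < p := by exact_mod_cast hp.pos
    rw [abs_mul, abs_of_pos (by positivity : (0 : ℝ) < 1 / p)]
    apply mul_le_of_le_one_right (by positivity)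
    have h1 : 0 ≤ (cn d p : ℝ) / (p : ℝ) ^ d := by positivity
    have h2 : (cn d p : ℝ) / (p : ℝ) ^ d ≤ 1 := by
      rw [div_le_one (by positivity)]
      have : cn d p ≤ p ^ d := by
        unfold cn
        refine (card_filter_le _ _).trans ?_
        rw [card_range]
      exact_mod_cast this
    rw [abs_le]
    split_ifs
    · constructor <;> linarith
    · constructor <;> linarith
  hM := by
    intro p n
    simp only [cond_mod]
  hS := by
    intro p hp
    have hp0 : (0 : ℝ) < p := by exact_mod_cast hp.pos
    rw [← mul_sum, sum_sub_distrib, Finset.sum_boole, sum_const, card_range, nsmul_eq_mul]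
    have h1 : ((p ^ d : ℕ) : ℝ) * ((cn d p : ℝ) / (p : ℝ) ^ d) = cn d p := by
      push_cast
      field_simp
    rw [h1]
    unfold cn
    simp

lemma cond_of_not_dvd {p n d : ℕ} (hp : p.Prime) (h : ¬ p ∣ (2 * n).choose n) : cond d p n := by
  intro i hi
  rw [mem_Icc] at hi
  by_contra hcon
  push Not at hcon
  apply h
  have h0 : 0 < (2 * n).choose n := Nat.choose_pos (by omega)
  have h1 := Nat.factorization_choose' (p := p) (n := n) (k := n) (b := Nat.log p (n + n) + 1 + i)
    hp (by omega)
  have h2 : i ∈ (Ico 1 (Nat.log p (n + n) + 1 + i)).filter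
      (fun i => p ^ i ≤ n % p ^ i + n % p ^ i) := by
    rw [mem_filter, mem_Ico]
    exact ⟨⟨hi.1, by omega⟩, by omega⟩
  have h3 : 0 < ((n + n).choose n).factorization p := by
    rw [h1]
    exact card_pos.2 ⟨i, h2⟩
  rw [two_mul]
  exact Nat.dvd_of_factorization_pos h3.ne'

end Pool.Agent.H771R4.UH
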