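import Mathlib
import Pool.Agent.H771R4.UH.Final

set_option autoImplicit false

/-! # Assembly, with a triple logarithm as error term -/

namespace Pool.Agent.H771R4.UH

open Finset Filter Topology

theorem final3 : ∃ C₀ : ℝ, ∃ N₀ : ℕ, ∀ N : ℕ, N₀ ≤ N →
    (#((Icc 1 N).filter (fun n : ℕ => Real.log (Real.log (Real.log n)) + C₀ <
      |S n - Real.log (Real.log n) / 2|)) : ℝ) ≤ (N : ℝ) ^ (3 / 4 : ℝ) := by
  classical
  obtain ⟨C₁, hC₁, hS⟩ := S_main
  obtain ⟨C, hC, hM⟩ := Pool.Agent.Helper923.HMertens.mertens_ratio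
  have hl2 : (0 : ℝ) < Real.log 2 := by have := Real.log_two_gt_d9; linarith
  set c₂ : ℝ := |Real.log (Real.log 2)| + C / Real.log 2 with hc₂
  have hc₂0 : 0 ≤ c₂ := by positivity
  refine ⟨C₁ + Real.log 80 + Real.log 2 + c₂ + 1 + (Real.log 400 + c₂), ?_⟩
  -- conditions on L = log N
  have hevL : ∀ᶠ L : ℝ in atTop, (22 * Real.log L ≤ L ∧ 2 * Real.log 2 ≤ Real.log L ∧
      1 ≤ Real.log L) ∧
      (80 * Real.log L < L / 200 ∧ L ≤ 1 / 200 * Real.exp ((3 / 100) * L)) ∧ 400 ≤ L := by
    have h1 := Real.tendsto_log_atTop.eventually_ge_atTop (2 * Real.log 2)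
    have h2 := Real.tendsto_log_atTop.eventually_ge_atTop (1 : ℝ)
    have h3 := Real.isLittleO_log_id_atTop.def (show (0 : ℝ) < 1 / 32000 by norm_num)
    have h4 := (isLittleO_rpow_exp_pos_mul_atTop 1 (show (0 : ℝ) < (3 / 100) by norm_num)).def
      (show (0 : ℝ) < 1 / 200 by norm_num)
    filter_upwards [h1, h2, h3, h4, eventually_ge_atTop 400] with L h1 h2 h3 h4 h6
    rw [Real.norm_eq_abs, abs_of_nonneg (by linarith), id, Real.norm_eq_abs,
      abs_of_pos (by linarith)] at h3
    rw [Real.rpow_one, Real.norm_eq_abs, abs_of_pos (by linarith), Real.norm_eq_abs,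
      abs_of_pos (Real.exp_pos _)] at h4
    exact ⟨⟨by linarith, h1, h2⟩, ⟨by linarith, h4⟩, h6⟩
  have hlog : Tendsto (fun N : ℕ => Real.log (N : ℝ)) atTop atTop :=
    Real.tendsto_log_atTop.comp tendsto_natCast_atTop_atTop
  obtain ⟨N₀, hN₀⟩ := eventually_atTop.1 ((hlog.eventually hevL).and (eventually_ge_atTop 2))
  refine ⟨N₀, fun N hN => ?_⟩
  obtain ⟨⟨⟨v1, v1', v2⟩, ⟨v3, v4⟩, v5⟩, hN2⟩ := hN₀ N hN
  set L : ℝ := Real.log N with hL
  have hL0 : 0 < L := by linarith
  have hN0 : (0 : ℝ) < N := by exact_mod_cast (by omega : 0 < N)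
  have hNexp : (N : ℝ) = Real.exp L := by rw [hL, Real.exp_log hN0]
  set y : ℝ := Real.log L with hy
  have hy1 : 1 ≤ y := v2
  set e : ℝ := 1 / (22 * y) with he
  have he0 : 0 < e := by positivity
  have v1 : 1 / e ≤ L := by
    rw [he, one_div_one_div]
    exact v1
  have hyL : y ≤ L := by
    have := Real.log_le_sub_one_of_pos hL0
    linarith
  set t : ℕ → ℝ := fun k => 80 * y * (21 / 20 : ℝ) ^ k with ht
  have ht0 : ∀ k, 80 ≤ t k := by
    intro k
    have : (1 : ℝ) ≤ (21 / 20 : ℝ) ^ k := one_le_pow₀ (by norm_num)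
    simp only [ht]
    nlinarith
  have ht1 : ∀ k, t (k + 1) = (21 / 20) * t k := by
    intro k
    simp only [ht]
    rw [pow_succ]; ring
  have htlow : ∀ k, 80 * y ≤ t k := by
    intro k
    have : (1 : ℝ) ≤ (21 / 20 : ℝ) ^ k := one_le_pow₀ (by norm_num)
    simp only [ht]
    nlinarith
  -- the number of blocks
  have hex : ∃ k, L / 200 ≤ t k := by
    obtain ⟨k, hk⟩ := pow_unbounded_of_one_lt (L / 200) (show (1 : ℝ) < (21 / 20) by norm_num)
    refine ⟨k, hk.le.trans ?_⟩
    simp only [ht]
    have : (0 : ℝ) < (21 / 20 : ℝ) ^ k := by positivity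
    nlinarith
  set K := Nat.find hex with hK
  have hK1 : L / 200 ≤ t K := Nat.find_spec hex
  have hK2 : ∀ k < K, t k < L / 200 := fun k hk => not_le.1 (Nat.find_min hex hk)
  have hKpos : 0 < K := by
    by_contra h
    have : K = 0 := by omega
    rw [this] at hK1
    simp only [ht, pow_zero, mul_one] at hK1
    linarith
  obtain ⟨K', hK'⟩ : ∃ K', K = K' + 1 := ⟨K - 1, by omega⟩
  have hKt : t K < (21 / 20) * (L / 200) := by
    rw [hK', ht1]
    have := hK2 K' (by omega)
    linarith
  have hKle : (K : ℝ) ≤ 22 * y := by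
    have h1 := hK2 K' (by omega)
    have h2 : (21 / 20 : ℝ) ^ K' ≤ L := by
      simp only [ht] at h1
      have : (0 : ℝ) < (21 / 20 : ℝ) ^ K' := by positivity
      nlinarith
    have h3 := Real.log_le_log (by positivity) h2
    rw [Real.log_pow] at h3
    have h4 : (1 : ℝ) / 21 ≤ Real.log (21 / 20) := by
      have := Real.one_sub_inv_le_log_of_pos (show (0 : ℝ) < (21 / 20) by norm_num)
      norm_num at this ⊢
      linarith
    have h5 : (K' : ℝ) * (1 / 21) ≤ K' * Real.log (21 / 20) := by gcongr
    rw [hK']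
    push_cast
    linarith
  set b : ℕ → ℕ := fun k => ⌊Real.exp (t k)⌋₊ with hb
  have hbmono : ∀ k, b k ≤ b (k + 1) := by
    intro k
    apply Nat.floor_le_floor
    apply Real.exp_le_exp.2
    rw [ht1]
    have := ht0 k
    linarith
  have hb2 : ∀ k, 2 ≤ b k := by
    intro k
    apply Nat.le_floor
    have h1 := Real.add_one_le_exp (t k)
    have := ht0 k
    push_cast
    linarith
  have hbexp : ∀ k, (b k : ℝ) ≤ Real.exp (t k) := fun k => Nat.floor_le (Real.exp_pos _).le
  -- exceptional sets
  set Ex : ℕ → Finset ℕ := fun k => (range (N + 1)).filter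
    (fun n => e < |∑ p ∈ (Ioc (b k) (b (k + 1))).filter Nat.Prime, X p n|) with hEx
  have hExc : ∀ k < K, (#(Ex k) : ℝ) ≤ 3 * Real.exp ((18 / 25) * L) := by
    intro k hk
    refine block_exc N (by omega) L (t k) e hL.symm v2 (htlow k) (hK2 k hk).le he0 v1 _ ?_ ?_
    · intro p hp
      rw [mem_filter, mem_Ioc] at hp
      refine ⟨hp.2, ?_, (Nat.lt_of_floor_lt hp.1.1).le⟩
      have := hb2 k
      omega
    · have h1 : #((Ioc (b k) (b (k + 1))).filter Nat.Prime) ≤ b (k + 1) := by
        refine (card_filter_le _ _).trans ?_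
        rw [Nat.card_Ioc]
        omega
      calc (#((Ioc (b k) (b (k + 1))).filter Nat.Prime) : ℝ) ≤ (b (k + 1) : ℝ) := by
            exact_mod_cast h1
        _ ≤ Real.exp (t (k + 1)) := hbexp _
        _ = Real.exp ((21 / 20) * t k) := by rw [ht1]
  have hincl : (Icc 1 N).filter (fun n : ℕ => Real.log (Real.log (Real.log n)) +
      (C₁ + Real.log 80 + Real.log 2 + c₂ + 1 + (Real.log 400 + c₂)) <
      |S n - Real.log (Real.log n) / 2|) ⊆
      Icc 1 ⌊Real.exp (L / 2)⌋₊ ∪ (range K).biUnion Ex := by
    intro n hn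
    rw [mem_filter, mem_Icc] at hn
    obtain ⟨⟨hn1, hnN⟩, hn2⟩ := hn
    rw [mem_union, mem_Icc, mem_biUnion]
    by_contra hcon
    push Not at hcon
    obtain ⟨hc1, hc2⟩ := hcon
    have hnbig : Real.exp (L / 2) < n := Nat.lt_of_floor_lt (hc1 hn1)
    have hnL : L / 2 ≤ Real.log n := by
      rw [Real.le_log_iff_exp_le (by exact_mod_cast hn1)]
      exact hnbig.le
    have hnL2 : Real.log n ≤ L := Real.log_le_log (by exact_mod_cast hn1) (by exact_mod_cast hnN)
    have hn2' : 2 ≤ n := by
      have h1 := Real.add_one_le_exp (L / 2)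
      have : (2 : ℝ) < n := by linarith
      have : 2 < n := by exact_mod_cast this
      omega
    have hbK : b K ≤ n := by
      have : (b K : ℝ) ≤ n := by
        refine (hbexp K).trans (le_trans (Real.exp_le_exp.2 ?_) hnbig.le)
        linarith
      exact_mod_cast this
    -- telescoping
    have htel : ∀ j, b 0 ≤ b j ∧ F n (b 0) (b j) = ∑ k ∈ range j, F n (b k) (b (k + 1)) := by
      intro j
      induction j with
      | zero =>
        refine ⟨le_rfl, ?_⟩
        unfold F
        simp
      | succ j ih =>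
        refine ⟨ih.1.trans (hbmono j), ?_⟩
        rw [sum_range_succ, ← ih.2, F_add n ih.1 (hbmono j)]
    have hsplit : F n 2 n = F n 2 (b 0) + ∑ k ∈ range K, F n (b k) (b (k + 1)) + F n (b K) n := by
      rw [← (htel K).2, F_add n (hb2 0) (htel K).1, F_add n ((hb2 0).trans (htel K).1) hbK]
    have hblocks : |∑ k ∈ range K, F n (b k) (b (k + 1))| ≤ 22 * y * e := by
      refine (abs_sum_le_sum_abs _ _).trans ?_
      calc ∑ k ∈ range K, |F n (b k) (b (k + 1))| ≤ ∑ _k ∈ range K, e := by
            apply sum_le_sum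
            intro k hk
            have h1 := hc2 k hk
            simp only [hEx] at h1
            rw [mem_filter, not_and, not_lt] at h1
            exact h1 (mem_range.2 (by omega))
        _ = K * e := by rw [sum_const, card_range, nsmul_eq_mul]
        _ ≤ 22 * y * e := by gcongr
    have habs2 := le_abs_self (Real.log (Real.log 2))
    have habs3 := neg_abs_le (Real.log (Real.log 2))
    have hfirst : |F n 2 (b 0)| ≤ Real.log (80 * y) + c₂ := by
      refine (F_abs n 2 (b 0)).trans ?_
      have h1 := hM 2 (b 0) le_rfl (hb2 0)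
      have hlb : 0 < Real.log (b 0) := Real.log_pos (by
        exact_mod_cast (by have := hb2 0; omega : 1 < b 0))
      rw [Nat.cast_ofNat, Real.log_div hlb.ne' hl2.ne', abs_le] at h1
      have h2 : Real.log (b 0) ≤ 80 * y := by
        have h3 := Real.log_le_log (by
          exact_mod_cast (by have := hb2 0; omega : 0 < b 0)) (hbexp 0)
        rw [Real.log_exp] at h3
        simp only [ht, pow_zero, mul_one] at h3
        exact h3
      have h4 := Real.log_le_log hlb h2
      linarith [h1.2]
    have hlast : |F n (b K) n| ≤ Real.log 400 + c₂ := by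
      refine (F_abs n (b K) n).trans ?_
      have h1 := hM (b K) n (hb2 K) hbK
      rw [abs_le] at h1
      have hbK1 : (1 : ℝ) < b K := by exact_mod_cast (by have := hb2 K; omega : 1 < b K)
      have hlb2 : Real.log 2 ≤ Real.log (b K) :=
        Real.log_le_log (by norm_num) (by exact_mod_cast hb2 K)
      have hlbK : L / 400 ≤ Real.log (b K) := by
        rw [Real.le_log_iff_exp_le (by linarith)]
        have h2 : Real.exp (t K) < (b K : ℝ) + 1 := Nat.lt_floor_add_one _
        have h3 : Real.exp (L / 200) ≤ Real.exp (t K) := Real.exp_le_exp.2 hK1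
        have h4 : Real.exp (L / 200) = Real.exp (L / 400) * Real.exp (L / 400) := by
          rw [← Real.exp_add]; congr 1; ring
        have h5 : 2 ≤ Real.exp (L / 400) := by
          have := Real.add_one_le_exp (L / 400)
          linarith
        nlinarith
      have hlb : 0 < Real.log (b K) := by linarith
      have h2 : Real.log (Real.log n / Real.log (b K)) ≤ Real.log 400 := by
        apply Real.log_le_log
        · apply div_pos _ hlb
          linarith
        · rw [div_le_iff₀ hlb]
          linarith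
      have h3 : C / Real.log (b K) ≤ C / Real.log 2 := by gcongr
      have h5 := abs_nonneg (Real.log (Real.log 2))
      linarith [h1.2]
    have hmain := hS n hn2'
    have hylow : y - Real.log 2 ≤ Real.log (Real.log n) := by
      have h1 := Real.log_le_log (by linarith) hnL
      rw [Real.log_div hL0.ne' (by norm_num)] at h1
      exact h1
    have htri : |S n - Real.log (Real.log n) / 2| ≤ C₁ + (Real.log (80 * y) + c₂) + 22 * y * e +
        (Real.log 400 + c₂) := by
      rw [hsplit] at hmain
      rw [abs_le] at hmain hfirst hblocks hlast ⊢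
      constructor
      · linarith [hmain.1, hfirst.1, hblocks.1, hlast.1]
      · linarith [hmain.2, hfirst.2, hblocks.2, hlast.2]
    have hye : 22 * y * e = 1 := by rw [he]; field_simp
    have hl80 : Real.log (80 * y) = Real.log 80 + Real.log y :=
      Real.log_mul (by norm_num) (by linarith)
    have hyy : Real.log y - Real.log 2 ≤ Real.log (Real.log (Real.log n)) := by
      rw [← Real.log_div (by linarith) (by norm_num)]
      apply Real.log_le_log (by linarith)
      linarith
    linarith
  have hcard := (card_le_card hincl).trans (card_union_le _ _)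
  have h1 : (#(Icc 1 ⌊Real.exp (L / 2)⌋₊) : ℝ) ≤ Real.exp ((18 / 25) * L) := by
    rw [Nat.card_Icc, Nat.add_sub_cancel]
    refine (Nat.floor_le (Real.exp_pos _).le).trans (Real.exp_le_exp.2 ?_)
    linarith
  have h2 : (#((range K).biUnion Ex) : ℝ) ≤ 66 * L * Real.exp ((18 / 25) * L) := by
    calc (#((range K).biUnion Ex) : ℝ) ≤ ∑ k ∈ range K, (#(Ex k) : ℝ) := by
          exact_mod_cast card_biUnion_le
      _ ≤ ∑ _k ∈ range K, 3 * Real.exp ((18 / 25) * L) :=
          sum_le_sum fun k hk => hExc k (mem_range.1 hk)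
      _ = K * (3 * Real.exp ((18 / 25) * L)) := by rw [sum_const, card_range, nsmul_eq_mul]
      _ ≤ (22 * L) * (3 * Real.exp ((18 / 25) * L)) := by
          apply mul_le_mul_of_nonneg_right _ (by positivity)
          linarith
      _ = 66 * L * Real.exp ((18 / 25) * L) := by ring
  calc (#((Icc 1 N).filter (fun n : ℕ => Real.log (Real.log (Real.log n)) +
      (C₁ + Real.log 80 + Real.log 2 + c₂ + 1 + (Real.log 400 + c₂)) <
      |S n - Real.log (Real.log n) / 2|)) : ℝ)
      ≤ (#(Icc 1 ⌊Real.exp (L / 2)⌋₊) : ℝ) + (#((range K).biUnion Ex) : ℝ) := by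
        exact_mod_cast hcard
    _ ≤ Real.exp ((18 / 25) * L) + 66 * L * Real.exp ((18 / 25) * L) := add_le_add h1 h2
    _ ≤ (200 * L) * Real.exp ((18 / 25) * L) := by
        have := Real.exp_pos ((18 / 25) * L)
        nlinarith
    _ ≤ Real.exp ((3 / 100) * L) * Real.exp ((18 / 25) * L) := by
        apply mul_le_mul_of_nonneg_right _ (Real.exp_pos _).le
        linarith
    _ = (N : ℝ) ^ (3 / 4 : ℝ) := by
        rw [← Real.exp_add, Real.rpow_def_of_pos hN0]
        congr 1
        rw [← hL]; ring

end Pool.Agent.H771R4.UH
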